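import Pool.Agent.Helper29.SH.Goals

/-!
# Project SH (MP_0a002a_al), packet BT: elements of order two
-/

set_option autoImplicit false

namespace Pool.Agent.Helper14.SH

open Subgroup Pool.H83Shunkov Pool.Agent.Helper29.SH

section gen

variable {G : Type} [Group G]

/-- pairs of conjugates generate finite subgroups -/
theorem pr_finite (hS : IsShunkov G) {x : G} (hx : (orderOf x).Prime) (g : G) :
    ((Pr x g : Subgroup G) : Set G).Finite := by
  have htop : Subgroup.normalizer ((⊥ : Subgroup G) : Set G) = ⊤ :=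
    normalizer_eq_top_iff.2 inferInstance
  have h1 := hS ⊥ (by simp) x (g⁻¹ * x * g) g⁻¹ (orderOf x) hx (by rw [htop]; trivial)
    (by rw [htop]; trivial) (by rw [htop]; trivial)
    (by rw [pow_orderOf_eq_one]; exact one_mem _) (by
      rw [mem_bot]
      rintro rfl
      rw [orderOf_one] at hx
      exact Nat.not_prime_one hx) (by
      have : (g⁻¹ * x * g⁻¹⁻¹)⁻¹ * (g⁻¹ * x * g) = 1 := by group
      rw [this]; exact one_mem _)
  exact h1.subset (closure_mono Set.subset_union_left)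

theorem inv_sup {a : G} {K L : Subgroup G} (hK : Inv a K) (hL : Inv a L) : Inv a (K ⊔ L) := by
  have h1 : K ⊔ L ≤ (K ⊔ L).comap (MulAut.conj a⁻¹).toMonoidHom := by
    refine sup_le ?_ ?_
    · intro k hk
      have h2 : a⁻¹ * k * a ∈ K ⊔ L := mem_sup_left (hK k hk)
      simpa [mem_comap] using h2
    · intro k hk
      have h2 : a⁻¹ * k * a ∈ K ⊔ L := mem_sup_right (hL k hk)
      simpa [mem_comap] using h2
  intro k hk
  have h2 := h1 hk
  simpa [mem_comap] using h2

theorem inv_zpowers {a x : G} (h : a⁻¹ * x * a ∈ zpowers x) : Inv a (zpowers x) := by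
  have h1 : zpowers x ≤ (zpowers x).comap (MulAut.conj a⁻¹).toMonoidHom := by
    rw [zpowers_le]
    simpa [mem_comap] using h
  intro k hk
  have h2 := h1 hk
  simpa [mem_comap] using h2

theorem inv_inf {a : G} {K L : Subgroup G} (hK : Inv a K) (hL : Inv a L) : Inv a (K ⊓ L) :=
  fun k hk => ⟨hK k hk.1, hL k hk.2⟩

theorem inv_normal {a : G} {N : Subgroup G} [hN : N.Normal] : Inv a N := by
  intro k hk
  simpa using hN.conj_mem k hk a⁻¹

theorem inv_of_mem {a : G} {K : Subgroup G} (ha : a ∈ K) : Inv a K :=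
  fun _ hk => mul_mem (mul_mem (inv_mem ha) hk) ha

theorem mem_pr (a g : G) : a ∈ Pr a g := subset_closure (by simp)

theorem mem_pr' (a g : G) : g⁻¹ * a * g ∈ Pr a g := subset_closure (by simp)

theorem inv_cent {a : G} {D : Subgroup G} (h : ∀ d ∈ D, a * d * a⁻¹ ∈ D) :
    Inv a (centralizer (D : Set G)) := by
  intro k hk
  rw [mem_centralizer_iff] at hk ⊢
  intro d hd
  have h1 := hk _ (h d hd)
  calc d * (a⁻¹ * k * a) = a⁻¹ * ((a * d * a⁻¹) * k) * a := by group
    _ = a⁻¹ * (k * (a * d * a⁻¹)) * a := by rw [h1]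
    _ = a⁻¹ * k * a * d := by group

theorem sup_finite (hLFA : S_LFA) {x : G} {D : Subgroup G} (hx : IsOfFinOrder x) (hi : Inv x D)
    (hD : (D : Set G).Finite) : ((D ⊔ zpowers x : Subgroup G) : Set G).Finite := by
  classical
  have h1 := hLFA G x D hx hi (isLocFin_of_finite hD)
  have h2 := h1 (hD.toFinset ∪ {x}) (by
    intro y hy
    simp only [Finset.coe_union, Set.Finite.coe_toFinset, Finset.coe_singleton, Set.mem_union,
      SetLike.mem_coe, Set.mem_singleton_iff] at hy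
    rcases hy with hy | hy
    · exact mem_sup_left hy
    · rw [hy]
      exact mem_sup_right (mem_zpowers _))
  refine h2.subset ?_
  have h3 : D ⊔ zpowers x ≤ closure (((hD.toFinset ∪ {x} : Finset G)) : Set G) := by
    refine sup_le (fun d hd => subset_closure ?_) ?_
    · simp only [Finset.coe_union, Set.Finite.coe_toFinset, Finset.coe_singleton, Set.mem_union,
        SetLike.mem_coe]
      exact Or.inl hd
    · rw [zpowers_le]
      exact subset_closure (by simp)
  exact h3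

theorem locFin_of_comm {F : Subgroup G} (hc : ∀ x ∈ F, ∀ y ∈ F, x * y = y * x)
    (ht : ∀ x ∈ F, IsOfFinOrder x) : IsLocFin F := by
  intro S hS
  obtain ⟨L, hL⟩ : ∃ L : Subgroup G, L = closure (S : Set G) := ⟨_, rfl⟩
  rw [← hL]
  have hLF : L ≤ F := by
    rw [hL]
    exact (closure_le F).2 hS
  let _ : CommGroup L :=
    { (inferInstance : Group L) with
      mul_comm := fun x y => Subtype.ext (hc x (hLF x.2) y (hLF y.2)) }
  have hfg : Group.FG L := (Group.fg_iff_subgroup_fg L).2 ⟨S, hL.symm⟩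
  have : Finite L := by
    apply CommGroup.finite_of_fg_isMulTorsion
    intro z
    obtain ⟨n, hn, h⟩ := isOfFinOrder_iff_pow_eq_one.1 (ht z (hLF z.2))
    exact isOfFinOrder_iff_pow_eq_one.2 ⟨n, hn, Subtype.ext (by simpa using h)⟩
  exact Set.toFinite _

/-- an involution without fixed points inverts everything -/
theorem inverted (hBIJ : S_BIJ) {a : G} (ha : a * a = 1) {K : Subgroup G}
    (hK : (K : Set G).Finite) (hi : Inv a K) (hf : FPF a K) : ∀ y ∈ K, a⁻¹ * y * a = y⁻¹ := by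
  intro y hy
  obtain ⟨k, hk, rfl⟩ := hBIJ G a K hK hi hf y hy
  have hinv : a⁻¹ = a := inv_eq_of_mul_eq_one_right ha
  rw [hinv]
  calc a * (a * k⁻¹ * a * k) * a = (a * a) * (k⁻¹ * a * k * a) := by group
    _ = k⁻¹ * a * k * a := by rw [ha, one_mul]
    _ = k⁻¹ * a⁻¹ * k * a⁻¹ := by rw [hinv]
    _ = (a * k⁻¹ * a * k)⁻¹ := by group

theorem isOfFinOrder_conj' {a k : G} (hk : IsOfFinOrder k) : IsOfFinOrder (a⁻¹ * k * a) := by
  have h := MonoidHom.isOfFinOrder (MulAut.conj a⁻¹).toMonoidHom hk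
  simpa using h

end gen

theorem t_BT (hBIJ : S_BIJ) (hLFA : S_LFA) (hMAX : S_MAX) (hSEP : S_SEP) (hTFG : S_TFG)
    (hGLF : S_GLF) (hFT2 : S_FT2) : S_BT := by
  intro G _ a hRG hSh hInf ho hTor
  by_contra hno
  have ha2 : a * a = 1 := by rw [← pow_two, ← ho, pow_orderOf_eq_one]
  have hainv : a⁻¹ = a := inv_eq_of_mul_eq_one_right ha2
  have hafin : IsOfFinOrder a := orderOf_pos_iff.1 (by omega)
  have hap : (orderOf a).Prime := by rw [ho]; exact Nat.prime_two
  obtain ⟨M, ⟨D, hDfin, hDinv, hDtor, hM⟩, hmax⟩ := hMAX G a hno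
    (fun M => ∃ D : Subgroup G, (D : Set G).Finite ∧ Inv a D ∧
      (Tor (centralizer (D : Set G))).Infinite ∧ M = D ⊔ zpowers a) (by
    rintro M ⟨D, h1, h2, -, rfl⟩
    exact ⟨mem_sup_right (mem_zpowers a), sup_finite hLFA hafin h2 h1⟩)
    ⟨⊥ ⊔ zpowers a, ⊥, by simp, by
      intro k hk
      rw [mem_bot] at hk ⊢
      rw [hk]
      group, by
      refine hInf.mono ?_
      intro t ht
      refine ⟨?_, ht⟩
      rw [mem_centralizer_iff]
      intro h hh
      have hh' : h = 1 := by simpa using hh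
      rw [hh', one_mul, mul_one], rfl⟩
  have hMfin : (M : Set G).Finite := by
    rw [hM]
    exact sup_finite hLFA hafin hDinv hDfin
  have hDM : D ≤ M := by rw [hM]; exact le_sup_left
  obtain ⟨C, hC⟩ : ∃ C : Subgroup G, C = centralizer (D : Set G) := ⟨_, rfl⟩
  have hCinv : Inv a C := by
    rw [hC]
    apply inv_cent
    intro d hd
    have h1 := hDinv d hd
    rw [hainv] at h1 ⊢
    exact h1
  have hDC : (Tor C).Infinite := by rw [hC]; exact hDtor
  -- the end of the proof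
  have hend : ∀ (N : Subgroup G) (_ : N.Normal), Good (G ⧸ N) →
      (∀ t ∈ C, t ∈ N → IsOfFinOrder t → t = 1) → False :=
    fun N _ hg h => hno (hGLF G C a hSh (hTFG G C N hg h) hDC hCinv hafin)
  -- the first normal subgroup
  have htop : Good (G ⧸ (⊤ : Subgroup G)) := by
    have : Subsingleton (G ⧸ (⊤ : Subgroup G)) := QuotientGroup.subsingleton_quotient_top
    exact good_finite _
  obtain ⟨N, hNn, -, hNS, hNg⟩ := hSEP G hRG ⊤ htop
    (((M : Set G) ∪ Tor (centralizer ({a} : Set G))) \ {1})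
    ((hMfin.union hTor).subset Set.sdiff_subset) (by
      rintro s ⟨hs | hs, hs1⟩
      · exact ⟨isOfFinOrder_of_mem_finite hMfin hs, hs1⟩
      · exact ⟨hs.2, hs1⟩)
  have hNfix : ∀ t ∈ N, IsOfFinOrder t → t * a = a * t → t = 1 := by
    intro t ht hto hta
    by_contra hne
    exact hNS t ⟨Or.inr ⟨mem_centralizer_singleton_iff.2 hta, hto⟩, hne⟩ ht
  have hNM : ∀ t ∈ N, t ∈ M → t = 1 := by
    intro t ht htM
    by_contra hne
    exact hNS t ⟨Or.inl htM, hne⟩ ht
  have hNCinv : Inv a (N ⊓ C) := inv_inf inv_normal hCinv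
  obtain ⟨g, hgNC, hga⟩ : ∃ g ∈ N ⊓ C, g * a ≠ a * g := by
    by_contra hcon
    push Not at hcon
    exact hend N hNn hNg fun t htC htN hto => hNfix t htN hto (hcon t ⟨htN, htC⟩)
  -- the finite subgroup `A`
  obtain ⟨A, hA⟩ : ∃ A : Subgroup G, A = Pr a g ⊓ (N ⊓ C) := ⟨_, rfl⟩
  have hAfin : (A : Set G).Finite := by
    refine (pr_finite hSh hap g).subset ?_
    rw [hA]
    exact fun y hy => hy.1
  have hAinv : Inv a A := by
    rw [hA]
    exact inv_inf (inv_of_mem (mem_pr a g)) hNCinv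
  have hAN : A ≤ N := by rw [hA]; exact inf_le_right.trans inf_le_left
  have hAC : A ≤ C := by rw [hA]; exact inf_le_right.trans inf_le_right
  have hAfpf : FPF a A := fun k hk hka =>
    hNfix k (hAN hk) (isOfFinOrder_of_mem_finite hAfin hk) hka
  obtain ⟨y, hy⟩ : ∃ y, y = a⁻¹ * g⁻¹ * a * g := ⟨_, rfl⟩
  have hyA : y ∈ A := by
    rw [hA, hy]
    refine ⟨?_, mul_mem (hNCinv _ (inv_mem hgNC)) hgNC⟩
    have h1 : a⁻¹ * g⁻¹ * a * g = a⁻¹ * (g⁻¹ * a * g) := by group
    rw [h1]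
    exact (Pr a g).mul_mem ((Pr a g).inv_mem (mem_pr a g)) (mem_pr' a g)
  have hy1 : y ≠ 1 := by
    intro h1
    apply hga
    rw [hy] at h1
    calc g * a = g * a * (a⁻¹ * g⁻¹ * a * g) := by rw [h1, mul_one]
      _ = a * g := by group
  have hyo : orderOf y ≠ 0 := by
    have h1 := orderOf_pos_iff.2 (isOfFinOrder_of_mem_finite hAfin hyA)
    omega
  obtain ⟨q, hqdef⟩ : ∃ q, q = (orderOf y).minFac := ⟨_, rfl⟩
  have hq : q.Prime := by
    rw [hqdef]
    apply Nat.minFac_prime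
    rwa [Ne, orderOf_eq_one_iff]
  obtain ⟨x, hxdef⟩ : ∃ x, x = y ^ (orderOf y / q) := ⟨_, rfl⟩
  have hxo : orderOf x = q := by
    rw [hxdef]
    apply orderOf_pow_orderOf_div hyo
    rw [hqdef]
    exact Nat.minFac_dvd _
  have hxA : x ∈ A := by rw [hxdef]; exact pow_mem hyA _
  have hx1 : x ≠ 1 := by
    intro h1
    rw [h1, orderOf_one] at hxo
    exact hq.one_lt.ne hxo
  have hxN : x ∈ N := hAN hxA
  have hxC : x ∈ C := hAC hxA
  have hxfin : IsOfFinOrder x := isOfFinOrder_of_mem_finite hAfin hxA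
  have hxa : a⁻¹ * x * a = x⁻¹ := inverted hBIJ ha2 hAfin hAinv hAfpf x hxA
  have hq2 : q ≠ 2 := by
    intro h2
    apply hx1
    apply hAfpf x hxA
    have h3 : x * x = 1 := by rw [← pow_two, ← h2, ← hxo, pow_orderOf_eq_one]
    have h4 : x⁻¹ = x := inv_eq_of_mul_eq_one_right h3
    rw [h4] at hxa
    calc x * a = a * (a⁻¹ * x * a) := by group
      _ = a * x := by rw [hxa]
  -- the group `D'`
  obtain ⟨D', hD'⟩ : ∃ D' : Subgroup G, D' = D ⊔ zpowers x := ⟨_, rfl⟩
  have hxD : Inv x D := by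
    intro d hd
    have h1 : d * x = x * d := by
      rw [hC, mem_centralizer_iff] at hxC
      exact hxC d hd
    have h2 : x⁻¹ * d * x = d := by rw [mul_assoc, h1, ← mul_assoc, inv_mul_cancel, one_mul]
    rw [h2]
    exact hd
  have hD'fin : (D' : Set G).Finite := by
    rw [hD']
    exact sup_finite hLFA hxfin hxD hDfin
  have hD'inv : Inv a D' := by
    rw [hD']
    exact inv_sup hDinv (inv_zpowers (by rw [hxa]; exact inv_mem (mem_zpowers x)))
  have hTor' : (Tor (centralizer (D' : Set G))).Finite := by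
    by_contra hinf
    have hle := hmax (D' ⊔ zpowers a) ⟨D', hD'fin, hD'inv, hinf, rfl⟩ (by
      rw [hM, hD']
      exact sup_le_sup_right le_sup_left _)
    have hxM : x ∈ M := by
      apply hle
      rw [hD']
      exact mem_sup_left (mem_sup_right (mem_zpowers x))
    exact hx1 (hNM x hxN hxM)
  -- the second normal subgroup
  obtain ⟨N', hN'n, hN'le, hN'S, hN'g⟩ := hSEP G hRG N hNg
    (Tor (centralizer (D' : Set G)) \ {1}) (hTor'.subset Set.sdiff_subset)
    (fun s hs => ⟨hs.1.2, hs.2⟩)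
  have hN'fix : ∀ t ∈ N' ⊓ C, IsOfFinOrder t → t * x = x * t → t = 1 := by
    intro t ht hto htx
    by_contra hne
    refine hN'S t ⟨⟨?_, hto⟩, hne⟩ ht.1
    have htC : t ∈ centralizer (D : Set G) := by rw [← hC]; exact ht.2
    rw [mem_centralizer_iff] at htC
    have h1 : D' ≤ centralizer ({t} : Set G) := by
      rw [hD']
      refine sup_le (fun d hd => mem_centralizer_singleton_iff.2 (htC d hd)) ?_
      rw [zpowers_le]
      exact mem_centralizer_singleton_iff.2 htx.symm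
    rw [mem_centralizer_iff]
    intro d hd
    exact mem_centralizer_singleton_iff.1 (h1 hd)
  obtain ⟨-, hmul⟩ := hFT2 G x (N' ⊓ C) q hq hq2 (by rw [← hxo, pow_orderOf_eq_one])
    (inv_inf inv_normal (inv_of_mem hxC)) (fun g _ => pr_finite hSh (by rw [hxo]; exact hq) g)
    hN'fix
  obtain ⟨F, hF⟩ : ∃ F : Subgroup G, ∀ t, t ∈ F ↔ t ∈ N' ⊓ C ∧ IsOfFinOrder t :=
    ⟨{ carrier := {t | t ∈ N' ⊓ C ∧ IsOfFinOrder t}
       mul_mem' := fun {s t} hs ht => ⟨mul_mem hs.1 ht.1, hmul s hs.1 t ht.1 hs.2 ht.2⟩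
       one_mem' := ⟨one_mem _, IsOfFinOrder.one⟩
       inv_mem' := fun {s} hs => ⟨inv_mem hs.1, hs.2.inv⟩ }, fun _ => Iff.rfl⟩
  have hN'Cinv : Inv a (N' ⊓ C) := inv_inf inv_normal hCinv
  have hFinv : Inv a F := by
    intro k hk
    rw [hF] at hk ⊢
    exact ⟨hN'Cinv k hk.1, isOfFinOrder_conj' hk.2⟩
  have hFfix : ∀ t ∈ F, t * a = a * t → t = 1 := by
    intro t ht hta
    rw [hF] at ht
    exact hNfix t (hN'le ht.1.1) ht.2 hta
  have hFi : ∀ f ∈ F, a⁻¹ * f * a = f⁻¹ := by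
    intro f hf
    obtain ⟨B, hB⟩ : ∃ B : Subgroup G, B = Pr a f ⊓ F := ⟨_, rfl⟩
    have hBfin : (B : Set G).Finite := by
      refine (pr_finite hSh hap f).subset ?_
      rw [hB]
      exact fun y hy => hy.1
    have hBinv : Inv a B := by
      rw [hB]
      exact inv_inf (inv_of_mem (mem_pr a f)) hFinv
    have hBF : B ≤ F := by rw [hB]; exact inf_le_right
    have hBfpf : FPF a B := fun k hk hka => hFfix k (hBF hk) hka
    have hz : a⁻¹ * f⁻¹ * a * f ∈ B := by
      rw [hB]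
      refine ⟨?_, mul_mem (hFinv _ (inv_mem hf)) hf⟩
      have h1 : a⁻¹ * f⁻¹ * a * f = a⁻¹ * (f⁻¹ * a * f) := by group
      rw [h1]
      exact (Pr a f).mul_mem ((Pr a f).inv_mem (mem_pr a f)) (mem_pr' a f)
    obtain ⟨k, hk, hk'⟩ := hBIJ G a B hBfin hBinv hBfpf _ hz
    have h2 : f⁻¹ * a * f = k⁻¹ * a * k := by
      calc f⁻¹ * a * f = a * (a⁻¹ * f⁻¹ * a * f) := by group
        _ = a * (a⁻¹ * k⁻¹ * a * k) := by rw [hk']
        _ = k⁻¹ * a * k := by group
    have h3 : f * k⁻¹ * a = a * (f * k⁻¹) := by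
      calc f * k⁻¹ * a = f * (k⁻¹ * a * k) * k⁻¹ := by group
        _ = f * (f⁻¹ * a * f) * k⁻¹ := by rw [h2]
        _ = a * (f * k⁻¹) := by group
    have h4 : f * k⁻¹ = 1 := hFfix _ (mul_mem hf (inv_mem (hBF hk))) h3
    have h5 : f = k := mul_inv_eq_one.1 h4
    exact inverted hBIJ ha2 hBfin hBinv hBfpf f (by rw [h5]; exact hk)
  have hFc : ∀ f ∈ F, ∀ g ∈ F, f * g = g * f := by
    intro f hf g hg
    have h1 := hFi (f * g) (mul_mem hf hg)
    have h2 := hFi f hf
    have h3 := hFi g hg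
    have h4 : f⁻¹ * g⁻¹ = (f * g)⁻¹ := by
      rw [← h1, ← h2, ← h3]
      group
    have h5 : (g * f)⁻¹ = (f * g)⁻¹ := by rw [mul_inv_rev, h4]
    exact (inv_injective h5).symm
  have hFt : ∀ f ∈ F, IsOfFinOrder f := fun f hf => ((hF f).1 hf).2
  by_cases hFfin : (F : Set G).Finite
  · obtain ⟨N₂, hN₂n, hN₂le, hN₂S, hN₂g⟩ := hSEP G hRG N' hN'g ((F : Set G) \ {1})
      (hFfin.subset Set.sdiff_subset) (fun s hs => ⟨hFt s hs.1, hs.2⟩)
    refine hend N₂ hN₂n hN₂g fun t htC htN hto => ?_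
    by_contra hne
    exact hN₂S t ⟨(hF t).2 ⟨⟨hN₂le htN, htC⟩, hto⟩, hne⟩ htN
  · apply hno
    refine ⟨F ⊔ zpowers a, mem_sup_right (mem_zpowers a), ?_,
      hLFA G a F hafin hFinv (locFin_of_comm hFc hFt)⟩
    have h6 : (F : Set G).Infinite := hFfin
    exact h6.mono fun y hy => mem_sup_left hy

end Pool.Agent.Helper14.SH
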